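import Pool.Agent.R417.FA.FrobRoot

/-!
# Lisse sheaves of rank two on factorial varieties over finite fields

Let `k` be a finite field with `q` elements and `X = Spec R` a geometrically irreducible affine
variety over `k`, of any dimension, such that the ring `R̄` of functions on `X` over `k̄` is
factorial and every invertible element of `R̄` is a constant times an invertible element of `R`.
Let `l` be an odd prime number different from the characteristic, `m ≥ 1` such that some power of
`q` is congruent to `1` modulo `l ^ m` but not modulo `l ^ (m + 1)`, and `ρ` a lisse `l`-adic sheaf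
of rank two on `X`, geometrically trivial modulo `l ^ m`.  Then either `ρ` is geometrically
unipotent (geometrically constant if it is semisimple), or its geometric monodromy is large: it is
the full principal congruence subgroup of level `l ^ m` if the coefficients are `ℤ_l`.  The second
case holds if `ρ` is irreducible over an algebraically closed field.
-/

set_option autoImplicit false

open IsLocalRing

namespace Pool.Agent.R417.Old.RankTwoMonodromy

/-- a separable closure `Ω` of the function field `K = Frac R` -/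
abbrev Om (R : Type) [CommRing R] [IsDomain R] : Type := SeparableClosure (FractionRing R)

/-- the absolute Galois group of `K`, with the Krull topology -/
abbrev GG (R : Type) [CommRing R] [IsDomain R] : Type :=
  Gal(SeparableClosure (FractionRing R)/FractionRing R)

/-- the ring `R̄` generated by `R` and `k̄` in `Ω` -/
noncomputable def geomRing (k R : Type) [Field k] [CommRing R] [IsDomain R] [Algebra k R] :
    Subalgebra R (Om R) :=
  Algebra.adjoin R {x : Om R | IsAlgebraic k x}

/-- the absolute Galois group of the field `K k̄`, generated over `K` by the elements of `Ω` that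
are algebraic over `k` -/
noncomputable def GeomGroup (k R : Type) [Field k] [CommRing R] [IsDomain R] [Algebra k R] :
    Subgroup (GG R) :=
  (IntermediateField.adjoin (FractionRing R) {x : Om R | IsAlgebraic k x}).fixingSubgroup

/-- The variety `X = Spec R` over `k` is geometrically irreducible, `R̄` is factorial and every
invertible element of `R̄` is a constant times an invertible element of `R`. -/
structure Factorial (k R : Type) [Field k] [CommRing R] [IsDomain R] [Algebra k R] : Prop where
  irreducible : ∀ x : FractionRing R, IsAlgebraic k x → ∃ c : k, algebraMap k (FractionRing R) c = x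
  factorial : UniqueFactorizationMonoid (geomRing k R)
  units : ∀ r ∈ geomRing k R, r ≠ 0 → r⁻¹ ∈ geomRing k R →
    ∃ (c : Om R) (x : R), IsAlgebraic k c ∧ IsUnit x ∧ r = c * algebraMap R (Om R) x

/-- the integral closure of `R` in `Ω` -/
noncomputable def intRing (R : Type) [CommRing R] [IsDomain R] : Subring (Om R) :=
  (integralClosure R (Om R)).toSubring

variable {R : Type} [CommRing R] [IsDomain R]

/-- `g` lies in the inertia group at the ideal `P`: `g y - y` lies in `P` for all `y`. -/
def InInertia (P : Ideal (intRing R)) (g : GG R) : Prop :=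
  ∀ y : intRing R, ∃ z ∈ P, (z : Om R) = g (y : Om R) - (y : Om R)

/-- `ρ` is a representation of the fundamental group of `X = Spec R` (a lisse sheaf on `X`): it is
trivial on the inertia groups at all prime ideals of the integral closure of `R` in `Ω`. -/
def Lisse {n : ℕ} {A : Type} [CommRing A] (ρ : GG R →* GL (Fin n) A) : Prop :=
  ∀ P : Ideal (intRing R), P.IsPrime → ∀ τ : GG R, InInertia P τ → ρ τ = 1

/-- the first layer of the geometric monodromy: the matrices `a` with `1 + r a = ρ g` for some `g`
in the geometric group -/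
def FirstLayer (k : Type) [Field k] [Algebra k R] {n : ℕ} {A : Type} [CommRing A]
    (ρ : GG R →* GL (Fin n) A) (r : A) : Set (Matrix (Fin n) (Fin n) A) :=
  {a | ∃ g ∈ GeomGroup k R, (ρ g : Matrix (Fin n) (Fin n) A) = 1 + r • a}

/-- the geometric monodromy is trivial modulo `r` -/
def GeomTrivialModulo (k : Type) [Field k] [Algebra k R] {n : ℕ} {A : Type} [CommRing A]
    (ρ : GG R →* GL (Fin n) A) (r : A) : Prop :=
  ∀ g ∈ GeomGroup k R, ∃ a : Matrix (Fin n) (Fin n) A,
    (ρ g : Matrix (Fin n) (Fin n) A) = 1 + r • a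

/-- the products of `N` of the matrices `ρ g - 1`, `g` in the geometric group, are zero -/
def ProductsVanish (k : Type) [Field k] [Algebra k R] {n : ℕ} {A : Type} [CommRing A]
    (ρ : GG R →* GL (Fin n) A) (N : ℕ) : Prop :=
  ∀ g : Fin N → GG R, (∀ s, g s ∈ GeomGroup k R) →
    (List.ofFn fun s => (ρ (g s) : Matrix (Fin n) (Fin n) A) - 1).prod = 0

/-- the geometric monodromy is trivial -/
def GeomConstant (k : Type) [Field k] [Algebra k R] {n : ℕ} {A : Type} [CommRing A]
    (ρ : GG R →* GL (Fin n) A) : Prop :=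
  ∀ g ∈ GeomGroup k R, ρ g = 1

/-- `W` is an invariant subspace of `Λ ^ n`. -/
def Invariant {n : ℕ} {A : Type} [CommRing A] {Λ : Type} [Field Λ] [Algebra A Λ]
    (ρ : GG R →* GL (Fin n) A) (W : Submodule Λ (Fin n → Λ)) : Prop :=
  ∀ g, ∀ w ∈ W, Matrix.mulVec ((ρ g : Matrix (Fin n) (Fin n) A).map (algebraMap A Λ)) w ∈ W

/-- The representation on the vector space `Λ ^ n` is semisimple: every invariant subspace has an
invariant complement. -/
def Semisimple {n : ℕ} {A : Type} [CommRing A] (Λ : Type) [Field Λ] [Algebra A Λ]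
    (ρ : GG R →* GL (Fin n) A) : Prop :=
  ∀ W : Submodule Λ (Fin n → Λ), Invariant ρ W →
    ∃ W' : Submodule Λ (Fin n → Λ), IsCompl W W' ∧ Invariant ρ W'

/-- The representation on the plane `Λ ^ 2` is irreducible. -/
def Irreducible {A : Type} [CommRing A] (Λ : Type) [Field Λ] [Algebra A Λ]
    (ρ : GG R →* GL (Fin 2) A) : Prop :=
  ∀ W : Submodule Λ (Fin 2 → Λ), Invariant ρ W → W = ⊥ ∨ W = ⊤

/-- the reductions of the elements of the first layer modulo the maximal ideal -/
def ReducedLayer (k : Type) [Field k] [Algebra k R] {A : Type} [CommRing A] [IsLocalRing A]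
    (ρ : GG R →* GL (Fin 2) A) (r : A) : Set (Matrix (Fin 2) (Fin 2) (ResidueField A)) :=
  (fun a => a.map (residue A)) '' FirstLayer k ρ r

/-- the geometric monodromy group -/
def GeomImage (k : Type) [Field k] [Algebra k R] {A : Type} [CommRing A]
    (ρ : GG R →* GL (Fin 2) A) : Set (Matrix (Fin 2) (Fin 2) A) :=
  {M | ∃ g ∈ GeomGroup k R, (ρ g : Matrix (Fin 2) (Fin 2) A) = M}

/-- the principal congruence subgroup of level `r` of `SL_2(A)` -/
def CongruenceSubgroup {A : Type} [CommRing A] (r : A) : Set (Matrix (Fin 2) (Fin 2) A) :=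
  {M | M.det = 1 ∧ ∃ X : Matrix (Fin 2) (Fin 2) A, M = 1 + r • X}

/-- some power of the number `q` of elements of `k` is congruent to `1` modulo `l ^ m` but not
modulo `l ^ (m + 1)` -/
def ExactLevel (k : Type) (l m : ℕ) : Prop :=
  ∃ d u : ℕ, Nat.card k ^ d = 1 + l ^ m * u ∧ ¬ l ∣ u

/-- The geometric monodromy lies in the principal congruence subgroup of level `l ^ m`, the
reduced first layer spans the trace zero matrices, and if the maximal ideal of `A` is generated by
`l` and the residue field has `l` elements (`A = ℤ_l`), the geometric monodromy group is equal to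
the principal congruence subgroup. -/
def LargeMonodromy (k : Type) [Field k] [Algebra k R] (l m : ℕ) {A : Type} [CommRing A]
    [IsLocalRing A] (ρ : GG R →* GL (Fin 2) A) : Prop :=
  GeomImage k ρ ⊆ CongruenceSubgroup ((l : A) ^ m) ∧
    (∀ X, X ∈ Submodule.span (ResidueField A) (ReducedLayer k ρ ((l : A) ^ m)) ↔ X.trace = 0) ∧
    (maximalIdeal A = Ideal.span {(l : A)} → Nat.card (ResidueField A) = l →
      GeomImage k ρ = CongruenceSubgroup ((l : A) ^ m))

theorem result (k : Type) [Field k] [Finite k] (R : Type) [CommRing R] [IsDomain R] [Algebra k R]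
    (hR : Factorial k R) (l : ℕ) (hl : l.Prime) (hl2 : l ≠ 2) (hlk : (l : k) ≠ 0)
    (m : ℕ) (hm : m ≠ 0) (hk : ExactLevel k l m)
    (A : Type) [CommRing A] [IsDomain A] [IsLocalRing A] [IsNoetherianRing A] [TopologicalSpace A]
    (hA : IsAdic (maximalIdeal A)) (hlA : (l : A) ∈ maximalIdeal A) (hl0 : (l : A) ≠ 0)
    (ρ : GG R →* GL (Fin 2) A) (hρ : Continuous ρ) (hlisse : Lisse ρ)
    (hgeo : GeomTrivialModulo k ρ ((l : A) ^ m)) :
    ((ProductsVanish k ρ 2 ∧
      ∀ (Λ : Type) [Field Λ] [Algebra A Λ], Function.Injective (algebraMap A Λ) →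
        Semisimple Λ ρ → GeomConstant k ρ) ∨ LargeMonodromy k l m ρ) ∧
    ∀ (Λ : Type) [Field Λ] [IsAlgClosed Λ] [Algebra A Λ], Function.Injective (algebraMap A Λ) →
      Irreducible Λ ρ → LargeMonodromy k l m ρ := by
  classical
  have hm2 : 2 < l ^ m := by
    have h1 : 3 ≤ l := by
      have := hl.two_le
      omega
    exact lt_of_lt_of_le (by omega) (Nat.le_self_pow hm l)
  have hmap : algebraMap k (Om R) (l : k) = (l : Om R) := map_natCast _ _
  have hlΩ : (l : Om R) ≠ 0 := by
    rw [← hmap, Ne, map_eq_zero]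
    exact hlk
  have : NeZero (l : Om R) := ⟨hlΩ⟩
  have : NeZero l := ⟨hl.ne_zero⟩
  obtain ⟨ζ, hζ⟩ := HasEnoughRootsOfUnity.exists_primitiveRoot (Om R) l
  have D := Pool.Agent.R417.FA.dat2 (k := k) (R := R) hl hlk hR.factorial hR.units hζ
  obtain ⟨d, u, hq, hu⟩ := hk
  obtain ⟨σ, hσ⟩ := Pool.Agent.R417.FA.frob_root (k := k) (R := R) hl hR.irreducible d
  rw [hq] at hσ
  have hur : ∀ P : Ideal (Pool.Agent.R417.FA.Bg R), P.IsPrime →
      ∀ τ : (Pool.Agent.R417.FA.Lg k R).fixingSubgroup,
        Pool.Agent.R417.FA.Inert (Pool.Agent.R417.FA.Bg R) P (τ : GG R) → ρ τ = 1 :=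
    fun P hP τ hτ => hlisse P hP τ hτ
  suffices hmain : (ProductsVanish k ρ 2 ∧
      ∀ (Λ : Type) [Field Λ] [Algebra A Λ], Function.Injective (algebraMap A Λ) →
        Semisimple Λ ρ → GeomConstant k ρ) ∨ LargeMonodromy k l m ρ by
    refine ⟨hmain, fun Λ _ _ _ hinj hirr => ?_⟩
    rcases hmain with ⟨-, h1⟩ | h1
    · exfalso
      have hc : GeomConstant k ρ := h1 Λ hinj (fun W hW => by
        rcases hirr W hW with rfl | rfl
        · exact ⟨⊤, isCompl_bot_top, fun g w _ => trivial⟩
        · refine ⟨⊥, isCompl_top_bot, fun g w hw => ?_⟩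
          rw [Submodule.mem_bot] at hw ⊢
          rw [hw, Matrix.mulVec_zero])
      have hcomm : ∀ g h, ρ g * ρ h = ρ h * ρ g := by
        intro g h
        obtain ⟨x, hx, hgh⟩ := Pool.Agent.R417.FA.comm_fix (k := k) g h
        rw [← map_mul, hgh, map_mul, hc x hx, mul_one, map_mul]
      have h2 := Pool.Agent.R417.FA.irr_comm (Λ := Λ) ρ hcomm two_ne_zero hirr
      exact absurd h2 (by norm_num)
    · exact h1
  have hgeo' := hgeo
  choose! a' ha' using hgeo
  set a : (Pool.Agent.R417.FA.Lg k R).fixingSubgroup → Matrix (Fin 2) (Fin 2) A := fun g => a' g with hadef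
  have ha : ∀ g : (Pool.Agent.R417.FA.Lg k R).fixingSubgroup, (ρ g : Matrix (Fin 2) (Fin 2) A) =
      1 + (l : A) ^ m • a g := fun g => ha' g g.2
  obtain ⟨hT, hrel⟩ := Pool.Agent.R417.FA.relGeo D hl hm2 hA hlA hl0 hρ hur ha hσ
  have htr := Pool.Agent.R417.GE.trace_zero (ρ σ).isUnit hl hlA hl0 hm hu hT hrel
  have hred : ∀ X : Matrix (Fin 2) (Fin 2) A, (X.map (residue A)).trace = residue A X.trace :=
    fun X => (AddMonoidHom.map_trace (residue A : A →+* ResidueField A) X).symm
  have hredm : ∀ X Y : Matrix (Fin 2) (Fin 2) A, (X * Y).map (residue A) =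
      X.map (residue A) * Y.map (residue A) := fun X Y => Matrix.map_mul
  by_cases h3 : ∀ x y z, ((a x * a y - a y * a x) * a z).trace ∈ maximalIdeal A
  · left
    have htwo := Pool.Agent.R417.GE.trace_two (ρ σ).isUnit hl hl2 hlA hl0 hm hu hT hrel h3
    have h2κ : (2 : ResidueField A) ≠ 0 := by
      have h6 : ¬ l ∣ 2 := fun hd => hl2 ((Nat.prime_dvd_prime_iff_eq hl Nat.prime_two).1 hd)
      have h7 := Pool.Agent.R417.GE.unit_u hl hlA h6
      rw [map_natCast] at h7
      exact_mod_cast h7
    have hz : ∀ g h, (a g).map (residue A) * (a h).map (residue A) = 0 := by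
      intro g h
      have e : ∀ x y, ((a x).map (residue A) * (a y).map (residue A)).trace = 0 := by
        intro x y
        rw [← hredm, hred]
        exact (residue_eq_zero_iff _).2 (htwo x y)
      refine Pool.Agent.R417.GE.two_mul_zero h2κ ?_ ?_ (e g g) (e h h) (e g h)
      · rw [hred]
        exact (residue_eq_zero_iff _).2 (htr g)
      · rw [hred]
        exact (residue_eq_zero_iff _).2 (htr h)
    have hnil : ∃ K : ℕ, Submodule.span A (Set.range a) ^ K ≤
        maximalIdeal A • (⊤ : Submodule A (Matrix (Fin 2) (Fin 2) A)) := by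
      refine ⟨2, ?_⟩
      rw [pow_two, Submodule.span_mul_span, Submodule.span_le]
      rintro _ ⟨_, ⟨g, rfl⟩, _, ⟨h, rfl⟩, rfl⟩
      refine Pool.Agent.W569.UG.mem_smul_top' _ _ fun i j => ?_
      rw [← residue_eq_zero_iff]
      have h1 := hz g h
      rw [← hredm] at h1
      exact congrFun (congrFun h1 i) j
    obtain ⟨w1, w2, w3⟩ := Pool.Agent.R417.GE.WW_stable (a := a) (l := l) (m := m)
    have h1 := Pool.Agent.R417.GE.bigNil (ρ σ).isUnit hl
      (lt_of_le_of_ne hl.two_le (Ne.symm hl2)) hlA hl0 hm hu hT
      (fun g => hrel (Pool.Agent.R417.GE.WW a l) w1 w2 w3 g) hnil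
    have h2 : (Submodule.span A (Set.range fun g : (Pool.Agent.R417.FA.Lg k R).fixingSubgroup =>
        (ρ g : Matrix (Fin 2) (Fin 2) A) - 1)) ^ 2 = ⊥ := by
      rw [eq_bot_iff, ← h1]
      refine pow_le_pow_left' ?_ 2
      rw [Submodule.span_le]
      rintro _ ⟨g, rfl⟩
      show (ρ g : Matrix (Fin 2) (Fin 2) A) - 1 ∈ _
      rw [ha, add_sub_cancel_left]
      exact Submodule.smul_mem _ _ (Submodule.subset_span ⟨g, rfl⟩)
    constructor
    · intro g hg
      rw [← Submodule.mem_bot A, ← h2]
      rw [Submodule.span_pow]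
      refine Submodule.subset_span ?_
      rw [Set.mem_pow]
      exact ⟨fun s => ⟨(ρ (g s) : Matrix (Fin 2) (Fin 2) A) - 1, ⟨⟨g s, hg s⟩, rfl⟩⟩, rfl⟩
    · intro Λ _ _ hinj hss g hg
      exact Pool.Agent.R417.FA.trivial_of_semisimple hinj
        (Pool.Agent.R417.FA.Lg k R).fixingSubgroup ρ h2 hss ⟨g, hg⟩
  · right
    push Not at h3
    obtain ⟨x, y, z, hxyz⟩ := h3
    have hdet := Pool.Agent.R417.FA.det_one D hl hm2 hA hlA hl0 hu hρ hur ha hσ
    have hql : (l : A) ^ m ≠ 0 := pow_ne_zero _ hl0
    have huniq : ∀ (g : (Pool.Agent.R417.FA.Lg k R).fixingSubgroup) (b : Matrix (Fin 2) (Fin 2) A),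
        (ρ g : Matrix (Fin 2) (Fin 2) A) = 1 + (l : A) ^ m • b → b = a g := by
      intro g b hb
      rw [ha, add_right_inj] at hb
      ext i j
      have h6 := congrFun (congrFun hb i) j
      rw [Matrix.smul_apply, Matrix.smul_apply, smul_eq_mul, smul_eq_mul] at h6
      exact (mul_left_cancel₀ hql h6).symm
    have hlay : ReducedLayer k ρ ((l : A) ^ m) = Set.range fun g => (a g).map (residue A) := by
      ext b
      constructor
      · rintro ⟨c, ⟨g, hg, hgc⟩, rfl⟩
        refine ⟨⟨g, hg⟩, ?_⟩
        show (a ⟨g, hg⟩).map (residue A) = _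
        rw [huniq ⟨g, hg⟩ c hgc]
      · rintro ⟨g, rfl⟩
        exact ⟨a g, ⟨g, g.2, ha g⟩, rfl⟩
    have hspan : ∀ X : Matrix (Fin 2) (Fin 2) (ResidueField A), X.trace = 0 →
        X ∈ Submodule.span (ResidueField A) (Set.range fun g => (a g).map (residue A)) := by
      intro X hX
      have ht : ∀ g, ((a g).map (residue A)).trace = 0 := by
        intro g
        rw [hred]
        exact (residue_eq_zero_iff _).2 (htr g)
      have h1 := Pool.Agent.R417.GE.two_span (ht x) (ht y) (ht z) hX
      have h2 : (((a x).map (residue A) * (a y).map (residue A) -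
          (a y).map (residue A) * (a x).map (residue A)) * (a z).map (residue A)).trace ≠ 0 := by
        intro h0
        apply hxyz
        rw [← residue_eq_zero_iff, ← hred, hredm]
        have h4 : (a x * a y - a y * a x).map (residue A) = (a x).map (residue A) *
            (a y).map (residue A) - (a y).map (residue A) * (a x).map (residue A) := by
          rw [← hredm, ← hredm]
          exact Matrix.map_sub _ (map_sub (residue A)) _ _
        rw [h4]
        exact h0
      have h5 : X = ((((a x).map (residue A) * (a y).map (residue A) -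
          (a y).map (residue A) * (a x).map (residue A)) * (a z).map (residue A)).trace)⁻¹ •
          (((((a x).map (residue A) * (a y).map (residue A) -
          (a y).map (residue A) * (a x).map (residue A)) * (a z).map (residue A)).trace) • X) := by
        rw [smul_smul, inv_mul_cancel₀ h2, one_smul]
      rw [h5, h1]
      exact Submodule.smul_mem _ _ (Submodule.add_mem _ (Submodule.add_mem _
        (Submodule.smul_mem _ _ (Submodule.subset_span ⟨x, rfl⟩))
        (Submodule.smul_mem _ _ (Submodule.subset_span ⟨y, rfl⟩)))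
        (Submodule.smul_mem _ _ (Submodule.subset_span ⟨z, rfl⟩)))
    have hsub : GeomImage k ρ ⊆ CongruenceSubgroup ((l : A) ^ m) := by
      rintro _ ⟨g, hg, rfl⟩
      exact ⟨hdet ⟨g, hg⟩, hgeo' g hg⟩
    refine ⟨hsub, fun X => ⟨fun hX => ?_, fun hX => ?_⟩, fun hmax hcard => ?_⟩
    · rw [hlay] at hX
      induction hX using Submodule.span_induction with
      | mem w hw =>
        obtain ⟨g, rfl⟩ := hw
        show ((a g).map (residue A)).trace = 0
        rw [hred]
        exact (residue_eq_zero_iff _).2 (htr g)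
      | zero => exact Matrix.trace_zero _ _
      | add v w _ _ hv hw => rw [Matrix.trace_add, hv, hw, add_zero]
      | smul c v _ hv => rw [Matrix.trace_smul, hv, smul_zero]
    · rw [hlay]
      exact hspan X hX
    · refine Set.Subset.antisymm hsub ?_
      rintro M ⟨hM1, X0, hM⟩
      obtain ⟨g, hg⟩ := Pool.Agent.R417.FA.full hl hl2 hA hlA hl0 hm hmax hcard hρ ha hdet hspan
        hM hM1
      exact ⟨g, g.2, hg⟩

end Pool.Agent.R417.Old.RankTwoMonodromy
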