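import Mathlib
import Pool.Agent.R417.BC.Top

/-!
# Semistable elliptic curves with a rational point of order two, ordered by conductor

Their number is at least `Z ^ (3/4) / 2000` and at most `C Z ^ (5/6) X ^ ε` for the conductor at most
`Z` and the height at most `X ^ 6`; so at most `C X ^ (5/κ + ε)` of them with height at most `X ^ 6`
violate `|Δ| ≤ c₀ N ^ κ`.
-/

set_option autoImplicit false

namespace Pool.Agent.R417.Old.TwoTorsionSemistable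

/-- the product of the distinct primes dividing `Δ(W)` (the conductor if `gcd(c₄, Δ) = 1`) -/
def conductor (W : WeierstrassCurve ℤ) : ℕ := ∏ p ∈ W.Δ.natAbs.primeFactors, p

/-- there is a rational point of order 2: `4x³ + b₂x² + 2b₄x + b₆` has a rational root -/
def HasTwoTorsion (W : WeierstrassCurve ℤ) : Prop :=
  ∃ r : ℚ, 4 * r ^ 3 + W.b₂ * r ^ 2 + 2 * W.b₄ * r + W.b₆ = 0

/-- the invariants `(c₄, c₆)` of the integral Weierstrass curves with `Δ ≠ 0` and `gcd(c₄, Δ) = 1`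
(the minimal models of the semistable elliptic curves over `ℚ`) having a rational point of order 2,
naive height `max (|c₄|³, c₆²) ≤ X⁶` and conductor at most `Z` -/
def Curves (Z : ℝ) (X : ℕ) : Set (ℤ × ℤ) :=
  {q | ∃ W : WeierstrassCurve ℤ, W.Δ ≠ 0 ∧ IsCoprime W.c₄ W.Δ ∧ HasTwoTorsion W ∧
    q = (W.c₄, W.c₆) ∧ |W.c₄| ^ 3 ≤ (X : ℤ) ^ 6 ∧ W.c₆ ^ 2 ≤ (X : ℤ) ^ 6 ∧ (conductor W : ℝ) ≤ Z}

/-- those of height at most `X⁶` with `c₀ N ^ κ < |Δ|` -/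
def Exceptional (κ c₀ : ℝ) (X : ℕ) : Set (ℤ × ℤ) :=
  {q | ∃ W : WeierstrassCurve ℤ, W.Δ ≠ 0 ∧ IsCoprime W.c₄ W.Δ ∧ HasTwoTorsion W ∧
    q = (W.c₄, W.c₆) ∧ |W.c₄| ^ 3 ≤ (X : ℤ) ^ 6 ∧ W.c₆ ^ 2 ≤ (X : ℤ) ^ 6 ∧
    c₀ * (conductor W : ℝ) ^ κ < |(W.Δ : ℝ)|}

/-- **Theorem.** Semistable elliptic curves over `ℚ` with a rational point of order 2:
(1) for every `ε > 0` at most `C Z ^ (5/6) X ^ ε` of them have conductor at most `Z` and height at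
most `X⁶`, for all `Z > 0` and `X ≥ 1`; (2) at least `Z ^ (3/4) / 2000` of them do, if `Z` is large
and `Z ≤ (X / 3)⁴`; (3) for all `κ, c₀, ε > 0` at most `C X ^ (5/κ + ε)` of them have height at most
`X⁶` and `c₀ N ^ κ < |Δ|`. For `κ = 6` the exponent in (3) is `5/6`. -/
theorem result :
    (∀ ε : ℝ, 0 < ε → ∃ C : ℝ, 0 < C ∧ ∀ (Z : ℝ) (X : ℕ), 0 < Z → 1 ≤ X →
      (Curves Z X).Finite ∧
      ((Curves Z X).ncard : ℝ) ≤ C * Z ^ ((5 : ℝ) / 6) * (X : ℝ) ^ ε) ∧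
    (∃ Z₀ : ℝ, ∀ (Z : ℝ) (X : ℕ), Z₀ ≤ Z → Z ≤ ((X : ℝ) / 3) ^ 4 →
      1 / 2000 * Z ^ ((3 : ℝ) / 4) ≤ ((Curves Z X).ncard : ℝ)) ∧
    ∀ κ c₀ ε : ℝ, 0 < κ → 0 < c₀ → 0 < ε → ∃ C : ℝ, 0 < C ∧ ∀ X : ℕ, 1 ≤ X →
      (Exceptional κ c₀ X).Finite ∧
      ((Exceptional κ c₀ X).ncard : ℝ) ≤ C * (X : ℝ) ^ (5 / κ + ε) := by
  refine ⟨fun ε hε => ?_, Pool.Agent.R417.BC.low2, fun κ c₀ ε hκ hc hε => ?_⟩
  · obtain ⟨C, hC, h⟩ := Pool.Agent.R417.BC.upper2.1 ε hε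
    exact ⟨C, hC, fun Z X hZ hX => ⟨Pool.Agent.R417.BC.cv_finite _ _ _, h Z X hZ hX⟩⟩
  · obtain ⟨C, hC, h⟩ := Pool.Agent.R417.BC.upper2.2 κ c₀ ε hκ hc hε
    rw [show 6 * (5 / 6) / κ = 5 / κ by ring] at h
    exact ⟨C, hC, h⟩

end Pool.Agent.R417.Old.TwoTorsionSemistable
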